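import Pool.Agent.Helper61.MM.Defs

set_option autoImplicit false

/-!
# Walls of replica pairs and canonical pairs: definitions
-/

namespace Pool.Agent.Helper61.MM

open MeasureTheory ProbabilityTheory Filter Topology Pool.Agent.Helper60.TJ
open scoped symmDiff

/-- law of (weights, two different locally minimal T-joins with the same T), as it comes from two
replicas -/
structure IsW (lam : Measure ℝ) (Q : Measure XX) : Prop where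
  fin : IsFiniteMeasure Q
  nice : ∀ᵐ p ∂Q, (∀ e, 0 < p.1 e) ∧ NT (wt p.1) ∧ p.2.1 ∈ GS (wt p.1) (par p.2.1) ∧
    p.2.2 ∈ GS (wt p.1) (par p.2.1) ∧ p.2.1 ≠ p.2.2
  inv : ∀ u, MeasurePreserving (shX u) Q Q
  fst_le : ∀ A, Q (Prod.fst ⁻¹' A) ≤ PP lam A
  res : ∀ e, ∃ r : Measure (XX × ℝ), r.map Prod.fst = Q ∧ (∀ᵐ q ∂r, 0 < q.2) ∧
    ((r.prod lam).restrict {z | |z.2 - z.1.1.1 e| < z.1.2}).map (fun z => updX e (z.1.1, z.2)) ≤ Q

/-- the wall is one bi-infinite path -/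
def One (p : XX) : Prop :=
  Deg2 (wl p) ∧ (∃ v, OnW (wl p) v) ∧ ∀ v v', OnW (wl p) v → OnW (wl p) v' → Cn (wl p) v v'

/-- two wall points with close heights -/
def Cl (C : ℝ) (v v' : Vx) (p : XX) : Prop :=
  OnW (wl p) v ∧ OnW (wl p) v' ∧ ∃ X : Finset Ed, (∀ e ∈ X, wl p e = true) ∧
    par (ind X) = vx (dl v) (dl v') ∧ |en (wt p.1) p.2.1 X| ≤ C

/-- the plaquette `x` is near the wall -/
def Nr (M : ℝ) (r : ℕ) (x : Vx) (p : XX) : Prop :=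
  ∃ v, v - x ∈ box r ∧ OnW (wl p) v ∧
    ∃ X : Finset Ed, par (ind X) = vx (dl x) (dl v) ∧ tw (wt p.1) X ≤ M

/-- wall points in a box are joined by wall segments in a larger box -/
def Sgm (L L' : ℕ) (p : XX) : Prop :=
  ∀ v ∈ box L, ∀ v' ∈ box L, OnW (wl p) v → OnW (wl p) v' →
    ∃ X : Finset Ed, (∀ e ∈ X, wl p e = true ∧ e.1 ∈ box L') ∧ par (ind X) = vx (dl v) (dl v')

/-- wall points such that points of `G` at index distance `< n` have close heights -/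
def HG (n : ℕ) (C : ℝ) (G : Finset Vx) (p : XX) : Prop :=
  ∀ v ∈ G, OnW (wl p) v ∧ ∀ d, wl p (edg v d) = true → ∀ m < n,
    v + pos (shX v p, d) m ∈ G → |Vn m (shX v p, d)| ≤ C

/-- toggle `x` and `x'` -/
def txy (x x' : Vx) : Gm := (({x} : Finset Vx) ∆ {x'}, ∅)

/-! ### the canonical pair -/

/-- conditional law of the T-join -/
noncomputable def kU (κ : Kernel WT Rs) : Kernel WT (Ed → Bool) := κ.map fun r => (r ∅).1

/-- number of ordered pairs of different elements of `Cn b` in `D` -/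
noncomputable def ctC (Cn : WT → Set (Ed → Bool)) (D : Set XX) (b : WT) : ENNReal :=
  (({q : (Ed → Bool) × (Ed → Bool) | q.1 ∈ Cn b ∧ q.2 ∈ Cn b ∧ q.1 ≠ q.2 ∧
    (b.1, q.1, q.2) ∈ D}.ncard : ℕ) : ENNReal)

/-- `v` is on the wall between the two canonical T-joins -/
def OnC (Cn : WT → Set (Ed → Bool)) (b : WT) (v : Vx) : Prop :=
  ∃ U ∈ Cn b, ∃ U' ∈ Cn b, OnW (bx U U') v

/-- two canonical T-joins, exchanged by toggles in an exact way -/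
structure HC (lam : Measure ℝ) (Cn : WT → Set (Ed → Bool)) (Q : Measure XX) : Prop where
  meas : MeasurableSet {q : WT × (Ed → Bool) | q.2 ∈ Cn q.1}
  two : ∀ᵐ b ∂(PB lam), (∀ e, 0 < b.1 e) ∧ NT b.1 ∧ (Cn b).ncard = 2 ∧ Cn b ⊆ GS b.1 b.2
  sh : ∀ u, ∀ᵐ b ∂(PB lam), Cn (shB u b) = sh u '' Cn b
  cnt : ∃ c : ENNReal, c ≠ 0 ∧ c ≤ 1 ∧
    ∀ D : Set XX, MeasurableSet D → Q D = c * ∫⁻ b, ctC Cn D b ∂(PB lam)
  cntm : ∀ D : Set XX, MeasurableSet D → AEMeasurable (ctC Cn D) (PB lam)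
  isW : IsW lam Q
  one : ∀ᵐ p ∂Q, One p
  ex : ∀ y y' : Vx, y ≠ y' → ∀ᵐ b ∂(PB lam), OnC Cn b y → OnC Cn b y' →
    OnC Cn (tB ({y} ∆ {y'}) b) y → OnC Cn (tB ({y} ∆ {y'}) b) y' →
      ∀ U ∈ Cn b, ∀ U' ∈ Cn b, U ≠ U' → ∀ X : Finset Ed, (∀ e ∈ X, bx U U' e = true) →
        par (ind X) = vx (dl y) (dl y') → bx U (ind X) ∈ Cn (tB ({y} ∆ {y'}) b)
  pos : ∃ c : ENNReal, 0 < c ∧ ∀ N : ℕ, ∃ v, v ∉ box N ∧
    c ≤ PB lam {b | OnC Cn b 0 ∧ OnC Cn b v ∧ OnC Cn (tB ({0} ∆ {v}) b) 0 ∧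
      OnC Cn (tB ({0} ∆ {v}) b) v}

/-- the walk along the wall is not diffusive -/
def SubD (Q : Measure XX) : Prop :=
  ∀ δ : ℝ, 0 < δ → ∃ n₁ : ℕ, ∀ n ≥ n₁, ∀ m ≤ n,
    (nuM Q).real {y | (n : ℝ) < |Vn m y| ^ 3} ≤ δ

end Pool.Agent.Helper61.MM
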