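import Pool.Agent.Helper61.MM.OkLem
import Pool.Agent.Helper5.MM.Tog2

set_option autoImplicit false

/-!
# META-TOG: the action on replicas; laws of the pairs; second moment argument
-/

namespace Pool.Agent.Helper61.MM

open MeasureTheory ProbabilityTheory Filter Topology Pool.Agent.Helper60.TJ
open scoped symmDiff

variable {lam : Measure ℝ} {κ : Kernel WT Rs} {R : Measure Om}

theorem measurable_aO (g : Gm) : Measurable (aO g) := Pool.Agent.Helper5.MM.Tog.measurable_aO g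

theorem measurable_pr (i j : Fin 3) (g : Gm) : Measurable (pr i j g) :=
  Pool.Agent.Helper5.MM.meas_pr i j g

theorem measurableSet_Df (i j : Fin 3) (g : Gm) : MeasurableSet (Df i j g) :=
  Pool.Agent.Helper5.MM.measurableSet_Df i j g

theorem aO_aO (g g' : Gm) (z : Om) : aO g (aO g' z) = aO (gad g g') z :=
  Pool.Agent.Helper5.MM.Tog.aO_aO g g' z

theorem pr_aO' (i j : Fin 3) (g g' : Gm) (z : Om) : pr i j g' (aO g z) = pr i j (gad g g') z :=
  Pool.Agent.Helper5.MM.Tog.pr_aO i j g g' z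

theorem pr_shO (i j : Fin 3) (u : Vx) (z : Om) :
    pr i j g0 (shO u z) = shX u (pr i j g0 z) :=
  Pool.Agent.Helper5.MM.Tog.pr_shO i j u z

theorem law_pr (hl : Wgt lam) (hR : IsR lam κ R) {i j : Fin 3} (hij : i ≠ j) (g : Gm) :
    (R.restrict (Df i j g)).map (pr i j g) = QQ R :=
  Pool.Agent.Helper5.MM.law_pr hl hR hij g

theorem le_QQ (hl : Wgt lam) (hR : IsR lam κ R) {i j : Fin 3} (hij : i ≠ j) (g : Gm) (D : Set XX)
    : R {z | z ∈ Df i j g ∧ pr i j g z ∈ D} ≤ QQ R D :=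
  Pool.Agent.Helper5.MM.Tog.le_QQ hR hij g D

/-- second moment argument -/
theorem bf (hl : Wgt lam) (hR : IsR lam κ R) {D : Set Om} (hD : MeasurableSet D) (B : Finset Vx) :
    (R D) ^ 2 * (B.card : ENNReal) ^ 2 ≤
      ∑ x ∈ B, ∑ x' ∈ B, R (D ∩ aO (txy x x') ⁻¹' D) :=
  Pool.Agent.Helper5.MM.Tog.bf hR hD B

end Pool.Agent.Helper61.MM
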