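import Pool.Agent.Helper61.MM.DefsB
import Pool.Agent.Helper23.MM.Cont

set_option autoImplicit false

/-!
# META-CONT: continuity and mixing for the law of weights and frustrated plaquettes
-/

namespace Pool.Agent.Helper61.MM

open MeasureTheory ProbabilityTheory Filter Topology Pool.Agent.Helper60.TJ
open scoped symmDiff

variable {lam : Measure ℝ}

theorem mp_shB (hl : Wgt lam) (u : Vx) : MeasurePreserving (shB u) (PB lam) (PB lam) :=
  Pool.Agent.Helper23.MM.mp_shB hl u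

theorem mp_tB (hl : Wgt lam) (S : Finset Vx) : MeasurePreserving (tB S) (PB lam) (PB lam) :=
  Pool.Agent.Helper23.MM.mp_tB hl S

/-- a toggle far away is not seen: `S` is toggled, seen from `u` -/
theorem far_toggle (hl : Wgt lam) {f : WT → ℝ} (hf : Measurable f) (hb : ∃ C, ∀ b, |f b| ≤ C)
    (S : Finset Vx) : Tendsto (fun u : Vx => ∫ b, |f (shB u (tB S b)) - f (shB u b)| ∂(PB lam))
      cofinite (𝓝 0) :=
  Pool.Agent.Helper23.MM.far_toggle hl hf hb S

/-- a single far toggle is not seen -/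
theorem far_one (hl : Wgt lam) {f : WT → ℝ} (hf : Measurable f) (hb : ∃ C, ∀ b, |f b| ≤ C) :
    Tendsto (fun v : Vx => ∫ b, |f (tB {v} b) - f b| ∂(PB lam)) cofinite (𝓝 0) :=
  Pool.Agent.Helper23.MM.far_one hl hf hb

theorem mixing (hl : Wgt lam) {A B : Set WT} (hA : MeasurableSet A) (hB : MeasurableSet B) :
    Tendsto (fun u : Vx => PB lam (A ∩ shB u ⁻¹' B)) cofinite (𝓝 (PB lam A * PB lam B)) :=
  Pool.Agent.Helper23.MM.mixing hl hA hB

theorem zero_one_B (hl : Wgt lam) {A : Set WT} (hA : MeasurableSet A)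
    (hi : ∀ u, ∀ᵐ b ∂(PB lam), shB u b ∈ A ↔ b ∈ A) : PB lam A = 0 ∨ PB lam A = 1 :=
  Pool.Agent.Helper23.MM.zero_one_B hl hA hi

theorem const_B (hl : Wgt lam) {f : WT → ℝ} (hf : Measurable f)
    (hi : ∀ u, ∀ᵐ b ∂(PB lam), f (shB u b) = f b) : ∃ c, ∀ᵐ b ∂(PB lam), f b = c :=
  Pool.Agent.Helper23.MM.const_B hl hf hi

end Pool.Agent.Helper61.MM
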