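import Pool.Agent.Helper61.MM.No3
import Pool.Agent.Helper61.MM.Cont
import Pool.Agent.Helper98.MM.FarPat
import Pool.Agent.Helper60.MW.NoSw
import Pool.Agent.Helper40.MM.Barr

set_option autoImplicit false

/-!
# META-BAR: replicas which differ still differ after a finite toggle
-/

namespace Pool.Agent.Helper61.MM

open MeasureTheory ProbabilityTheory Filter Topology Pool.Agent.Helper60.TJ
open scoped symmDiff

variable {lam : Measure ℝ} {κ : Kernel WT Rs} {R : Measure Om}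

/-- agreement on a finite set of edges -/
def Ag (F : Finset Ed) (U U' : Ed → Bool) : Prop := ∀ e ∈ F, U e = U' e

/-- far away the toggled state is one of the two states (here for the replicas `0` and `1`) -/
theorem far_pat (hl : Wgt lam) (hR : IsR lam κ R)
    (h3 : R (Df 0 1 g0 ∩ Df 0 2 g0 ∩ Df 1 2 g0) = 0) (D : Finset Ed) (F : Finset Ed) {ε : ℝ}
    (hε : 0 < ε) : ∀ᶠ u : Vx in cofinite, ∀ i : Fin 3, (i = 0 ∨ i = 1) →
      R {z | z ∈ Df 0 1 g0 ∧ ¬ (Ag (trE u F) (uu (rp z i) (tg g0 D)) (uu (rp z 0) g0) ∨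
        Ag (trE u F) (uu (rp z i) (tg g0 D)) (uu (rp z 1) g0))} ≤ ENNReal.ofReal ε := by
  exact Pool.Agent.Helper98.MM.far_pat hl hR h3 D F hε

/-- far away the toggled state is not the other state -/
theorem no_switch (hl : Wgt lam) (hR : IsR lam κ R)
    (hW : IsW lam (QQ R)) (D : Finset Ed) {ε : ℝ} (hε : 0 < ε) :
    ∃ L : ℕ, ∀ L' ≥ L, ∀ u : Vx, ∀ i j : Fin 3, i ≠ j →
      R {z | z ∈ Df i j g0 ∧ Ag (trE u (ebox L')) (uu (rp z i) (tg g0 D)) (uu (rp z j) g0)}
        ≤ ENNReal.ofReal ε := by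
  exact no_switch_h60 hl hR hW D hε

/-- different replicas stay different -/
theorem barrier (hl : Wgt lam) (hR : IsR lam κ R)
    (hW : IsW lam (QQ R)) (h3 : R (Df 0 1 g0 ∩ Df 0 2 g0 ∩ Df 1 2 g0) = 0) (D : Finset Ed) :
    R (Df 0 1 g0 \ Df 0 1 (tg g0 D)) = 0 := by
  exact Pool.Agent.Helper40.MM.barrier_of D (fun F _ hε => far_pat hl hR h3 D F hε)
    (fun hε => no_switch hl hR hW D hε)

/-- the same from any modification without exchanges -/
theorem barrier' (hl : Wgt lam) (hR : IsR lam κ R)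
    (hW : IsW lam (QQ R)) (h3 : R (Df 0 1 g0 ∩ Df 0 2 g0 ∩ Df 1 2 g0) = 0) (D : Finset Ed) :
    ∀ᵐ z ∂(R), (z ∈ Df 0 1 g0 ↔ z ∈ Df 0 1 (tg g0 D)) := by
  exact Pool.Agent.Helper40.MM.barrier'_of hR D (barrier hl hR hW h3 D)

end Pool.Agent.Helper61.MM
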