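import Pool.Agent.Helper61.MM.Posi
import Pool.Agent.Helper42.MM.CanonC
import Pool.Agent.Helper49.MM.CanA
import Pool.Agent.Helper74.MM.Two

set_option autoImplicit false

/-!
# META-CANON: the canonical pair
-/

namespace Pool.Agent.Helper61.MM

open MeasureTheory ProbabilityTheory Filter Topology Pool.Agent.Helper60.TJ
open scoped symmDiff

variable {lam : Measure ℝ} {κ : Kernel WT Rs} {R : Measure Om}

/-- the states of positive conditional probability -/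
noncomputable def Cn (κ : Kernel WT Rs) (b : WT) : Set (Ed → Bool) := {U | kU κ b {U} ≠ 0}

/-! ### CANON-A: the kernel -/

theorem measurable_mass (κ : Kernel WT Rs) [IsMarkovKernel κ] :
    Measurable fun q : WT × (Ed → Bool) => kU κ q.1 {q.2} := by
  exact Pool.Agent.Helper49.MM.measurable_mass' κ

theorem kU_shift (hl : Wgt lam) (hR : IsR lam κ R) (u : Vx) :
    ∀ᵐ b ∂(PB lam), kU κ (shB u b) = (kU κ b).map (sh u) := by
  exact Pool.Agent.Helper49.MM.kU_shift' hl hR u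

theorem kU_GS (hl : Wgt lam) (hR : IsR lam κ R) :
    ∀ᵐ b ∂(PB lam), (∀ e, 0 < b.1 e) ∧ NT b.1 ∧ ∀ᵐ U ∂(kU κ b), U ∈ GS b.1 b.2 := by
  exact Pool.Agent.Helper49.MM.kU_GS' hl hR

/-- no three different replicas: at most two atoms -/
theorem two_atoms (hl : Wgt lam) (hR : IsR lam κ R)
    (h3 : R (Df 0 1 g0 ∩ Df 0 2 g0 ∩ Df 1 2 g0) = 0) :
    ∀ᵐ b ∂(PB lam), (Cn κ b).Finite ∧ (Cn κ b).ncard ≤ 2 ∧ Cn κ b ≠ ∅ ∧ kU κ b (Cn κ b) = 1 := by
  exact Pool.Agent.Helper49.MM.two_atoms' hl hR h3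

/-- the toggled states of the replicas are canonical for the toggled environment -/
theorem mem_Cn (hl : Wgt lam) (hR : IsR lam κ R)
    (h3 : R (Df 0 1 g0 ∩ Df 0 2 g0 ∩ Df 1 2 g0) = 0) (S : Finset Vx) :
    ∀ᵐ z ∂(R), ∀ i, uu (rp z i) (S, ∅) ∈ Cn κ (tB S (bE0 z.1)) := by
  exact Pool.Agent.Helper49.MM.mem_Cs hl hR h3 S

/-! ### CANON-B: one state, or exactly two states -/

/-- either there is a covariant state, or there are exactly two canonical states and the law of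
the different replicas is a multiple of the counting law -/
theorem one_or_two (hl : Wgt lam) (hR : IsR lam κ R)
    (h3 : R (Df 0 1 g0 ∩ Df 0 2 g0 ∩ Df 1 2 g0) = 0) :
    (∃ F : WT → (Ed → Bool), Measurable F ∧ (∀ᵐ b ∂(PB lam), F b ∈ GS b.1 b.2) ∧
      ∀ u, ∀ᵐ b ∂(PB lam), F (shB u b) = sh u (F b)) ∨
    ((∀ᵐ b ∂(PB lam), (Cn κ b).ncard = 2) ∧ R (Df 0 1 g0) ≠ 0 ∧
      (∀ D : Set XX, MeasurableSet D → AEMeasurable (ctC (Cn κ) D) (PB lam)) ∧
      ∃ c : ENNReal, c ≠ 0 ∧ c ≤ 1 ∧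
        ∀ D : Set XX, MeasurableSet D → QQ R D = c * ∫⁻ b, ctC (Cn κ) D b ∂(PB lam)) := by
  exact Pool.Agent.Helper74.MM.one_or_two' hl hR (fun _ => rfl) (kU_shift hl hR) (kU_GS hl hR)
    (two_atoms hl hR h3)

/-! ### CANON-C: exactness and positivity for the canonical pair -/

theorem canon_ex (hl : Wgt lam) (hR : IsR lam κ R)
    (hW : IsW lam (QQ R)) (h3 : R (Df 0 1 g0 ∩ Df 0 2 g0 ∩ Df 1 2 g0) = 0)
    (h2 : ∀ᵐ b ∂(PB lam), (Cn κ b).ncard = 2) {c : ENNReal} (hc : c ≠ 0)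
    (hcnt : ∀ D : Set XX, MeasurableSet D → QQ R D = c * ∫⁻ b, ctC (Cn κ) D b ∂(PB lam))
    (hcm : ∀ D : Set XX, MeasurableSet D → AEMeasurable (ctC (Cn κ) D) (PB lam))
    (y y' : Vx) (hy : y ≠ y') : ∀ᵐ b ∂(PB lam), OnC (Cn κ) b y → OnC (Cn κ) b y' →
    OnC (Cn κ) (tB ({y} ∆ {y'}) b) y → OnC (Cn κ) (tB ({y} ∆ {y'}) b) y' →
      ∀ U ∈ Cn κ b, ∀ U' ∈ Cn κ b, U ≠ U' → ∀ X : Finset Ed, (∀ e ∈ X, bx U U' e = true) →
        par (ind X) = vx (dl y) (dl y') → bx U (ind X) ∈ Cn κ (tB ({y} ∆ {y'}) b) := by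
  have := hR.mark
  exact Pool.Agent.Helper42.MM.canon_ex' hl hR hW h3 (fun _ => rfl) (measurable_mass κ)
    (kU_GS hl hR) (two_atoms hl hR h3) (mem_Cn hl hR h3) h2 hc hcnt hcm y y'

theorem canon_pos (hl : Wgt lam) (hR : IsR lam κ R)
    (h3 : R (Df 0 1 g0 ∩ Df 0 2 g0 ∩ Df 1 2 g0) = 0) (v : Vx) :
    R (Ex2 0 v) ≤ PB lam {b | OnC (Cn κ) b 0 ∧ OnC (Cn κ) b v ∧
      OnC (Cn κ) (tB ({0} ∆ {v}) b) 0 ∧ OnC (Cn κ) (tB ({0} ∆ {v}) b) v} :=
  Pool.Agent.Helper42.MM.canon_pos' hl hR (mem_Cn hl hR h3) v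

/-! ### CANON-D: assembly -/

theorem canon (hl : Wgt lam) (hu : ∀ K : ℝ, lam {x | K < x} ≠ 0)
    (hR : IsR lam κ R) (hW : IsW lam (QQ R)) :
    (∃ F : WT → (Ed → Bool), Measurable F ∧ (∀ᵐ b ∂(PB lam), F b ∈ GS b.1 b.2) ∧
      ∀ u, ∀ᵐ b ∂(PB lam), F (shB u b) = sh u (F b)) ∨
    HC lam (Cn κ) (QQ R) := by
  have := hR.mark
  have h3 := no3 hl hR hW
  rcases one_or_two hl hR h3 with h | ⟨h2, hp, hcm, c, hc, hc1, hcnt⟩
  · exact Or.inl h
  right
  refine ⟨?_, ?_, ?_, ⟨c, hc, hc1, hcnt⟩, hcm, hW, w_one hl hW, ?_, ?_⟩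
  · exact (measurable_mass κ (measurableSet_singleton 0).compl : MeasurableSet _)
  · filter_upwards [kU_GS hl hR, h2] with b hb hb2
    refine ⟨hb.1, hb.2.1, hb2, fun U hU => ?_⟩
    by_contra hn
    apply hU
    have h4 := hb.2.2
    rw [ae_iff] at h4
    exact measure_mono_null (fun V hV => by rw [Set.mem_singleton_iff.1 hV]; exact hn) h4
  · intro u
    filter_upwards [kU_shift hl hR u] with b hb
    ext U
    unfold Cn
    rw [Set.mem_ofPred_eq, hb]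
    have hm : Measurable (sh u : (Ed → Bool) → (Ed → Bool)) :=
      measurable_pi_lambda _ fun e => measurable_pi_apply _
    have hinj : ∀ V : Ed → Bool, sh u (sh (-u) V) = V := by
      intro V
      rw [sh_sh, add_neg_cancel, sh_zero]
    have hinj' : ∀ V : Ed → Bool, sh (-u) (sh u V) = V := by
      intro V
      rw [sh_sh, neg_add_cancel, sh_zero]
    rw [Measure.map_apply hm (measurableSet_singleton U)]
    have h5 : sh u ⁻¹' {U} = {sh (-u) U} := by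
      ext V
      simp only [Set.mem_preimage, Set.mem_singleton_iff]
      constructor
      · rintro rfl; rw [hinj']
      · rintro rfl; rw [hinj]
    rw [h5]
    constructor
    · intro h; exact ⟨sh (-u) U, h, hinj U⟩
    · rintro ⟨V, hV, rfl⟩
      rw [hinj']
      exact hV
  · intro y y' hy
    exact canon_ex hl hR hW h3 h2 hc hcnt hcm y y' hy
  · obtain ⟨c', hc', h⟩ := posi hl hu hR hW h3 hp
    refine ⟨c', hc', fun N => ?_⟩
    obtain ⟨v, hv, hcv⟩ := h N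
    exact ⟨v, hv, hcv.trans (canon_pos hl hR h3 v)⟩

end Pool.Agent.Helper61.MM
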