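import Pool.Agent.Helper60.TJ.Defs

set_option autoImplicit false

/-!
# Extended metastates of the Edwards-Anderson model on `ℤ²`: definitions

Everything is formulated with weights `w` (absolute values of the couplings) and the set `T` of
frustrated plaquettes; a pair of ground states is a locally minimal `T`-join (`GS w T`).
-/

namespace Pool.Agent.Helper61.MM

open MeasureTheory ProbabilityTheory Filter Topology Pool.Agent.Helper60.TJ
open scoped symmDiff

/-! ### environments and modifications -/

/-- indicator of a finite set of plaquettes -/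
def indV (S : Finset Vx) : Vx → Bool := fun v => decide (v ∈ S)

/-- plaquettes of odd degree of a finite edge set -/
def bdy (D : Finset Ed) : Finset Vx :=
  ((D.image da) ∪ (D.image db)).filter fun v => par (ind D) v = true

/-- environment: (weight, spare weight) at each edge, frustrated plaquettes -/
abbrev Env := (Ed → ℝ × ℝ) × (Vx → Bool)

/-- modifications: plaquettes to be toggled; edges where weight and spare weight are exchanged -/
abbrev Gm := Finset Vx × Finset Ed

/-- no modification -/
abbrev g0 : Gm := (∅, ∅)

/-- composition of modifications (an abelian group of exponent two) -/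
def gad (g g' : Gm) : Gm := (g.1 ∆ g'.1, g.2 ∆ g'.2)

/-- in addition toggle the end points of `D` -/
def tg (g : Gm) (D : Finset Ed) : Gm := (g.1 ∆ bdy D, g.2)

/-- in addition exchange the weights on `A` -/
def sg2 (g : Gm) (A : Finset Ed) : Gm := (g.1, g.2 ∆ A)

/-- weights after the modification -/
def ww (g : Gm) (ω : Env) : Ed → ℝ := fun e => if e ∈ g.2 then (ω.1 e).2 else (ω.1 e).1

/-- frustrated plaquettes after the modification -/
def tt (g : Gm) (ω : Env) : Vx → Bool := vx ω.2 (indV g.1)

/-- action on environments -/
def aE (g : Gm) (ω : Env) : Env :=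
  (fun e => if e ∈ g.2 then (ω.1 e).swap else ω.1 e, vx ω.2 (indV g.1))

/-- translates of sets of plaquettes -/
def shT (u : Vx) (T : Vx → Bool) : Vx → Bool := fun v => T (v + u)

/-- translate of a finite set of plaquettes by `+u` -/
def trV (u : Vx) (S : Finset Vx) : Finset Vx := S.image (· + u)

/-- translate of a finite set of edges by `+u` -/
def trE (u : Vx) (D : Finset Ed) : Finset Ed := D.image fun e => (e.1 + u, e.2)

/-- translates of environments -/
def shE (u : Vx) (ω : Env) : Env := (sh u ω.1, shT u ω.2)

/-! ### states -/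

/-- state: unsatisfied edges, energy differences of finite toggles, flexibilities -/
abbrev St := (Ed → Bool) × (Finset Ed → ℝ) × (Ed → ℝ)

/-- volume: the states of all modifications -/
abbrev Vl := Gm → St

/-- unsatisfied edges after the modification `g` -/
def uu (s : Vl) (g : Gm) : Ed → Bool := (s g).1

/-- energy (after toggling `bdy D`) minus energy, both after the modification `g` -/
def hh (s : Vl) (g : Gm) (D : Finset Ed) : ℝ := (s g).2.1 D

/-- flexibility of the edge `e` after the modification `g` -/
def fx (s : Vl) (g : Gm) (e : Ed) : ℝ := (s g).2.2 e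

/-- action on volumes -/
def aV (g : Gm) (s : Vl) : Vl := fun g' => s (gad g g')

/-- translates of states -/
def shSt (u : Vx) (x : St) : St := (sh u x.1, fun D => x.2.1 (trE u D), sh u x.2.2)

/-- translates of volumes -/
def shV (u : Vx) (s : Vl) : Vl := fun g => shSt u (s (trV u g.1, trE u g.2))

/-- all the deterministic properties of a volume -/
structure Ok (ω : Env) (s : Vl) : Prop where
  pos : ∀ e, 0 < (ω.1 e).1 ∧ 0 < (ω.1 e).2
  nt : ∀ g, NT (ww g ω)
  mem : ∀ g, uu s g ∈ GS (ww g ω) (tt g ω)
  coc : ∀ g D D', hh s g (D ∆ D') = hh s g D + hh s (tg g D) D'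
  le : ∀ g D X, par (ind X) = par (ind D) → hh s g D ≤ en (ww g ω) (uu s g) X
  gap : ∀ g D X f, par (ind X) = par (ind D) →
    bx (bx (uu s (tg g D)) (uu s g)) (ind X) f = true →
      fx s (tg g D) f ≤ en (ww g ω) (uu s g) X - hh s g D
  fpos : ∀ g e, 0 < fx s g e
  flex : ∀ g e, |ww (sg2 g {e}) ω e - ww g ω e| < fx s g e → uu s (sg2 g {e}) = uu s g
  raise : ∀ g (A A₁ : Finset Ed) (K : ℝ), A₁ ⊆ A → (∀ e ∈ A, uu s g e = decide (e ∈ A₁)) → 0 ≤ K →
    (∀ e ∈ A, ww g ω e + K < ww (sg2 g A) ω e) →
      uu s (tg (sg2 g A) A₁) = bx (uu s g) (ind A₁) ∧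
      ∀ D, hh s g D ≤ hh s (tg (sg2 g A) A₁) D ∧
        (hh s (tg (sg2 g A) A₁) D < hh s g D + K →
          ∀ e ∈ A, uu s (tg (tg (sg2 g A) A₁) D) e = uu s (tg (sg2 g A) A₁) e)

/-! ### measures -/

/-- fair coin -/
noncomputable def coin : Measure Bool :=
  (2 : ENNReal)⁻¹ • (Measure.dirac true + Measure.dirac false)

/-- law of the frustrated plaquettes -/
noncomputable abbrev PT : Measure (Vx → Bool) := Measure.infinitePi fun _ : Vx => coin

/-- law of the environment; `lam` is the law of the weights -/
noncomputable abbrev PE (lam : Measure ℝ) : Measure Env :=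
  (Measure.infinitePi fun _ : Ed => lam.prod lam).prod PT

/-- weights and frustrated plaquettes -/
abbrev WT := (Ed → ℝ) × (Vx → Bool)

/-- law of weights and frustrated plaquettes -/
noncomputable abbrev PB (lam : Measure ℝ) : Measure WT := (PP lam).prod PT

/-- translates -/
def shB (u : Vx) (b : WT) : WT := (sh u b.1, shT u b.2)

/-- toggle a finite set of plaquettes -/
def tB (S : Finset Vx) (b : WT) : WT := (b.1, vx b.2 (indV S))

/-- the law of the weights: no atoms, positive weights -/
structure Wgt (lam : Measure ℝ) : Prop where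
  prob : IsProbabilityMeasure lam
  atl : ∀ x : ℝ, lam {x} = 0
  pos : lam (Set.Iic 0) = 0

/-! ### a volume given the environment -/

/-- restricted volume: only toggles -/
abbrev Rs := Finset Vx → St

/-- restriction of a volume to toggles -/
def rs (s : Vl) : Rs := fun S => s (S, ∅)

/-- weights and frustrated plaquettes of an environment -/
def bE0 (ω : Env) : WT := (fun e => (ω.1 e).1, ω.2)

/-- spare weights -/
def spr (ω : Env) : Ed → ℝ := fun e => (ω.1 e).2

/-- translates of pairs (environment, volume) -/
def shP (u : Vx) (p : Env × Vl) : Env × Vl := (shE u p.1, shV u p.2)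

/-- action on pairs (environment, volume) -/
def aP (g : Gm) (p : Env × Vl) : Env × Vl := (aE g p.1, aV g p.2)

/-- law of (environment, volume): an invariant limit of finite-volume ground states -/
structure IsM (lam : Measure ℝ) (Q : Measure (Env × Vl)) : Prop where
  fst : Q.map Prod.fst = PE lam
  shift : ∀ u, MeasurePreserving (shP u) Q Q
  act : ∀ g, MeasurePreserving (aP g) Q Q
  ok : ∀ᵐ p ∂Q, Ok p.1 p.2
  indep : Q.map (fun p => (spr p.1, bE0 p.1, rs p.2)) =
    (PP lam).prod (Q.map fun p => (bE0 p.1, rs p.2))

/-! ### three replicas -/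

/-- environment and three volumes -/
abbrev Om := Env × Vl × Vl × Vl

/-- translates -/
def shO (u : Vx) (z : Om) : Om := (shE u z.1, shV u z.2.1, shV u z.2.2.1, shV u z.2.2.2)

/-- action of the modifications -/
def aO (g : Gm) (z : Om) : Om := (aE g z.1, aV g z.2.1, aV g z.2.2.1, aV g z.2.2.2)

/-- the replicas -/
def rp (z : Om) : Fin 3 → Vl := ![z.2.1, z.2.2.1, z.2.2.2]

/-- three conditionally independent volumes given the environment; `κ` is the conditional law of the
restricted volume given weights and frustrated plaquettes -/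
structure IsR (lam : Measure ℝ) (κ : Kernel WT Rs) (R : Measure Om) : Prop where
  mark : IsMarkovKernel κ
  prob : IsProbabilityMeasure R
  shift : ∀ u, MeasurePreserving (shO u) R R
  act : ∀ g, MeasurePreserving (aO g) R R
  ok : ∀ᵐ z ∂(R), ∀ i, Ok z.1 (rp z i)
  law : R.map (fun z => (spr z.1, bE0 z.1, rs z.2.1, rs z.2.2.1, rs z.2.2.2)) =
    (PP lam).prod ((PB lam) ⊗ₘ (κ ×ₖ (κ ×ₖ κ)))

/-- the pair of the T-joins of the replicas `i` and `j` after the modification `g` -/
def pr (i j : Fin 3) (g : Gm) (z : Om) : XX := (ww g z.1, uu (rp z i) g, uu (rp z j) g)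

/-- the replicas `i` and `j` differ after the modification `g` -/
def Df (i j : Fin 3) (g : Gm) : Set Om := {z | uu (rp z i) g ≠ uu (rp z j) g}

/-- law of (weights, two different replicas) -/
noncomputable def QQ (R : Measure Om) : Measure XX := (R.restrict (Df 0 1 g0)).map (pr 0 1 g0)

end Pool.Agent.Helper61.MM
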