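import Pool.Agent.Helper61.MM.DefsB

set_option autoImplicit false

/-!
# Definitions for the positivity of exact reflections (section 6)
-/

namespace Pool.Agent.Helper61.MM

open MeasureTheory ProbabilityTheory Filter Topology Pool.Agent.Helper60.TJ
open scoped symmDiff

/-- `X` is the wall segment between `v` and `v'` -/
def IsSeg (p : XX) (v v' : Vx) (X : Finset Ed) : Prop :=
  (∀ e ∈ X, wl p e = true) ∧ par (ind X) = vx (dl v) (dl v')

/-- the defects of `{v, v'}` are at most `C` (base point `g`) -/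
def Dft (C : ℝ) (g : Gm) (v v' : Vx) (z : Om) : Prop :=
  ∀ D X : Finset Ed, par (ind D) = vx (dl v) (dl v') → IsSeg (pr 0 1 g z) v v' X →
    en (ww g z.1) (uu (rp z 0) g) X ≤ hh (rp z 0) g D + C ∧
      - en (ww g z.1) (uu (rp z 0) g) X ≤ hh (rp z 1) g D + C

/-- `v` is reached from `y` in less than `n` wall steps -/
def Wn (n : ℕ) (p : XX) (y v : Vx) : Prop :=
  ∃ d, wl p (edg y d) = true ∧ ∃ m < n, v = y + pos (shX y p, d) m

/-- there are partners of `y'` near `y` with larger and with smaller height -/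
def Gd (n : ℕ) (C : ℝ) (y y' : Vx) (z : Om) : Prop :=
  (∃ v X Y, Wn n (pr 0 1 g0 z) y v ∧ Dft C g0 v y' z ∧ IsSeg (pr 0 1 g0 z) y y' X ∧
    IsSeg (pr 0 1 g0 z) v y' Y ∧
      en (ww g0 z.1) (uu (rp z 0) g0) X + C < en (ww g0 z.1) (uu (rp z 0) g0) Y) ∧
  (∃ v X Y, Wn n (pr 0 1 g0 z) y v ∧ Dft C g0 v y' z ∧ IsSeg (pr 0 1 g0 z) y y' X ∧
    IsSeg (pr 0 1 g0 z) v y' Y ∧
      en (ww g0 z.1) (uu (rp z 0) g0) Y + C < en (ww g0 z.1) (uu (rp z 0) g0) X)

/-- good pairs -/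
def GG (n : ℕ) (C : ℝ) (y y' : Vx) : Set Om :=
  {z | z ∈ Df 0 1 g0 ∧ OnW (wl (pr 0 1 g0 z)) y ∧ OnW (wl (pr 0 1 g0 z)) y' ∧
    Dft C g0 y y' z ∧ Gd n C y y' z ∧ Gd n C y' y z}

/-- edges with an end point at distance at most `n` from `y` -/
noncomputable def bEy (n : ℕ) (y : Vx) : Finset Ed :=
  ((box n ×ˢ (Finset.univ : Finset Dir)).image fun q => edg (y + q.1) q.2)

/-- the wall passes through both points before and after the toggle of both -/
def Ex2 (y y' : Vx) : Set Om :=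
  {z | z ∈ Df 0 1 g0 ∧ OnW (wl (pr 0 1 g0 z)) y ∧ OnW (wl (pr 0 1 g0 z)) y' ∧
    OnW (wl (pr 0 1 (txy y y') z)) y ∧ OnW (wl (pr 0 1 (txy y y') z)) y'}

end Pool.Agent.Helper61.MM
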