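import Pool.Agent.Helper12.MM.OkLem

set_option autoImplicit false

/-! META-OK: consequences of `Ok` (deterministic), proved in `Helper12/MM/OkLem` -/
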