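import Pool.Agent.Helper61.MM.DefsC
import Pool.Agent.Helper61.MM.OkLem
import Pool.Agent.Helper66.TJ.Half
import Pool.Agent.Helper86.MM.Exit

set_option autoImplicit false

/-!
# META-EXIT: behind barriers both replicas leave along the wall in the right direction
(deterministic)
-/

namespace Pool.Agent.Helper61.MM

open MeasureTheory ProbabilityTheory Filter Topology Pool.Agent.Helper60.TJ
open scoped symmDiff

/-- `A` = off-wall edges near `y` and `y'`, `A₁` = those of them which are unsatisfied; on `A` the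
spare weights are larger by more than `K > C` -/
theorem exit {z : Om} (hz : ∀ i, Ok z.1 (rp z i)) (h1 : One (pr 0 1 g0 z))
    (hac : ∀ C : Finset Ed, IsCyc C → (∀ e ∈ C, wl (pr 0 1 g0 z) e = true) → C = ∅)
    {n : ℕ} {C K : ℝ} (hC : 0 ≤ C) (hK : C < K) {y y' : Vx} (hfar : y' - y ∉ box (2 * n + 4))
    (hg : z ∈ GG n C y y')
    {A A₁ : Finset Ed} (hA : ∀ e, e ∈ A ↔ (e ∈ bEy (n + 1) y ∪ bEy (n + 1) y' ∧
      wl (pr 0 1 g0 z) e = false))
    (hA₁ : ∀ e, e ∈ A₁ ↔ (e ∈ A ∧ uu (rp z 0) g0 e = true))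
    (hr : ∀ e ∈ A, ww g0 z.1 e + K < ww (sg2 g0 A) z.1 e) :
    aO (tg (sg2 g0 A) A₁) z ∈ Ex2 y y' := by
  exact Pool.Helper86.MM.exit hz h1 hac hC hK hfar hg hA hA₁ hr

end Pool.Agent.Helper61.MM
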