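import Pool.Agent.Helper61.MM.Canon
import Pool.Agent.Helper83.MM.SysC
import Pool.Agent.Helper66.EAM.Res3
import Pool.Agent.Helper5.MMRepB
import Pool.Agent.Helper59.UP.E
import Pool.Agent.Helper49.MM.ExM
import Pool.Agent.Helper66.LK.FinA

set_option autoImplicit false

/-!
# META-FIN: assembly
-/

namespace Pool.Agent.Helper61.MM

open MeasureTheory ProbabilityTheory Filter Topology Pool.Agent.Helper60.TJ
open scoped symmDiff
open Pool.Agent.Helper5.MM (exists_R isW_QQ)
open Pool.Agent.Helper66.LK.FinA (law_wf cov_of_F)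

/-! ### Part A (helper49, helper5, helper99) -/

theorem sub_QQ {lam : Measure ℝ} (hl : Wgt lam) {κ : Kernel WT Rs} {R : Measure Om}
    (hR : IsR lam κ R) : SubD (QQ R) :=
  Pool.Agent.Helper59.UP.sub_of hl hR (w_deg (isW_QQ hl hR)) (w_acy (isW_QQ hl hR))
    (w_Th (isW_QQ hl hR))

/-! ### final -/

theorem exists_F {lam : Measure ℝ} (hl : Wgt lam) (hu : ∀ K : ℝ, lam {x | K < x} ≠ 0) :
    ∃ F : WT → (Ed → Bool), Measurable F ∧ (∀ᵐ b ∂(PB lam), F b ∈ GS b.1 b.2) ∧
      ∀ u, ∀ᵐ b ∂(PB lam), F (shB u b) = sh u (F b) := by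
  obtain ⟨Q, hQ⟩ := exists_M hl
  obtain ⟨κ, R, hR⟩ := exists_R hl hQ
  have hW := isW_QQ hl hR
  rcases canon hl hu hR hW with h | h
  · exact h
  · exact (no_two hl h (sub_QQ hl hR)).elim

open Pool.H66.EAM in
/-- the covariant ground state always exists -/
theorem caseA (μ : Measure ℝ) [IsProbabilityMeasure μ] (hsym : μ.map (fun x => -x) = μ)
    (hatl : ∀ x : ℝ, μ {x} = 0) (hu : ∀ K : ℝ, μ {x | K < |x|} ≠ 0) : CaseA μ := by
  have hab : Measurable fun x : ℝ => |x| := measurable_norm
  set lam : Measure ℝ := μ.map fun x => |x| with hlam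
  have hprob : IsProbabilityMeasure lam := Measure.isProbabilityMeasure_map hab.aemeasurable
  have hl : Wgt lam := by
    refine ⟨hprob, fun x => ?_, ?_⟩
    · rw [hlam, Measure.map_apply hab (measurableSet_singleton x)]
      refine measure_mono_null (t := {x} ∪ {-x}) ?_ (measure_union_null (hatl x) (hatl (-x)))
      intro t ht
      simp only [Set.mem_preimage, Set.mem_singleton_iff] at ht
      subst ht
      rcases abs_choice t with h | h
      · left; exact h.symm
      · right
        simp only [Set.mem_singleton_iff]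
        rw [h, neg_neg]
    · rw [hlam, Measure.map_apply hab measurableSet_Iic]
      refine measure_mono_null (t := {0}) ?_ (hatl 0)
      intro t ht
      simp only [Set.mem_preimage, Set.mem_Iic] at ht
      exact abs_nonpos_iff.1 ht
  have hu' : ∀ K : ℝ, lam {x | K < x} ≠ 0 := by
    intro K
    show lam (Set.Ioi K) ≠ 0
    rw [hlam, Measure.map_apply hab measurableSet_Ioi]
    exact hu K
  obtain ⟨F, hF, hGS, hsh⟩ := exists_F hl hu'
  obtain ⟨α, hα⟩ := cov_of_F hsym hatl hF hGS hsh
  exact caseA_of_cov hatl hα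

end Pool.Agent.Helper61.MM
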