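import Pool.Agent.Helper61.MM.DefsC
import Pool.Agent.Helper61.MM.Barr
import Pool.Agent.Helper99.MM.Good3

set_option autoImplicit false

namespace Pool.Agent.Helper61.MM

open MeasureTheory ProbabilityTheory Filter Topology Pool.Agent.Helper60.TJ
open scoped symmDiff

variable {lam : Measure ℝ} {κ : Kernel WT Rs} {R : Measure Om}

/-- the defects are tight -/
theorem dft_tight (hl : Wgt lam) (hR : IsR lam κ R)
    (hW : IsW lam (QQ R)) (h3 : R (Df 0 1 g0 ∩ Df 0 2 g0 ∩ Df 1 2 g0) = 0) {ε : ℝ} (hε : 0 < ε) :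
    ∃ C : ℝ, 0 ≤ C ∧ ∀ v v' : Vx, R {z | z ∈ Df 0 1 g0 ∧ OnW (wl (pr 0 1 g0 z)) v ∧
      OnW (wl (pr 0 1 g0 z)) v' ∧ ¬ Dft C g0 v v' z} ≤ ENNReal.ofReal ε :=
  Pool.Agent.Helper99.MM.dft_tight_of hl hR (w_one hl hW)
    (fun ε hε => by
      obtain ⟨M, r, _, h⟩ := w_near hl hW hε
      exact ⟨M, r, h⟩)
    (fun D => (barrier' hl hR hW h3 D).mono fun z h => h.1) hε

/-- good pairs -/
theorem many_good (hl : Wgt lam) (hR : IsR lam κ R)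
    (hW : IsW lam (QQ R)) (h3 : R (Df 0 1 g0 ∩ Df 0 2 g0 ∩ Df 1 2 g0) = 0)
    (hp : R (Df 0 1 g0) ≠ 0) :
    ∃ c : ENNReal, 0 < c ∧ ∃ (n : ℕ) (C : ℝ), 0 ≤ C ∧ ∀ N : ℕ, ∃ y y' : Vx, y' - y ∉ box N ∧
      c ≤ R (GG n C y y') :=
  Pool.Agent.Helper99.MM.many_good_of hl hR hW (w_one hl hW) (w_acy hW)
    (fun _ hε => dft_tight hl hR hW h3 hε) (fun C _ _ hε hδ => w_blocks hl hW C hε hδ) hp

end Pool.Agent.Helper61.MM
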