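import Pool.Agent.Helper61.MM.Wall
import Pool.Agent.Helper61.MM.Tog2

set_option autoImplicit false

/-!
# META-NO3: there are no three pairwise different replicas
-/

namespace Pool.Agent.Helper61.MM

open MeasureTheory ProbabilityTheory Filter Topology Pool.Agent.Helper60.TJ
open scoped symmDiff

variable {lam : Measure ℝ} {κ : Kernel WT Rs} {R : Measure Om}

theorem no3 (hl : Wgt lam) (hR : IsR lam κ R)
    (hW : IsW lam (QQ R)) : R (Df 0 1 g0 ∩ Df 0 2 g0 ∩ Df 1 2 g0) = 0 := by
  exact Pool.Agent.Helper63.MM.no3 hl hR hW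

end Pool.Agent.Helper61.MM
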