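import Pool.Agent.Helper61.MM.DefsB
import Pool.Agent.Helper66.TJ.ZPath
import Pool.Agent.Helper66.TJ.Half
import Pool.Agent.Helper60.MW.Walk
import Pool.Agent.Helper60.MW.Rec
import Pool.Agent.Helper60.MW.Cl
import Pool.Agent.Helper63.MS.ForM
import Pool.Agent.Helper63.MM.No3

set_option autoImplicit false

/-!
# Walls of replica pairs: statements of Part B
-/

namespace Pool.Agent.Helper61.MM

open MeasureTheory ProbabilityTheory Filter Topology Pool.Agent.Helper60.TJ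
open scoped symmDiff

variable {lam : Measure ℝ} {Q : Measure XX}

/-! ### helper60 -/

theorem w_acy (hQ : IsW lam Q) : ∀ᵐ p ∂Q, ∀ C : Finset Ed, IsCyc C → (∀ e ∈ C, wl p e = true) →
    C = ∅ := by
  exact hQ.acyclic

theorem w_deg (hQ : IsW lam Q) : ∀ᵐ p ∂Q, Deg2 (wl p) := by
  exact hQ.deg2

theorem w_rec (hl : Wgt lam) (hQ : IsW lam Q) :
    ∀ᵐ p ∂Q, ∀ A : Ed → Bool, Sat (wl p) A → bx p.2.1 A ∈ GS (wt p.1) (par p.2.1) := by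
  exact hQ.recomb hl

theorem w_lt (hQ : IsW lam Q) : nuM Q Set.univ < ⊤ := by
  exact hQ.nu_lt

theorem w_GY (hQ : IsW lam Q) : ∀ᵐ y ∂(nuM Q), GY y := by
  exact hQ.ae_GY

theorem w_Th (hQ : IsW lam Q) : MeasurePreserving Th (nuM Q) (nuM Q) := by
  exact hQ.mp_Th

theorem w_rv (hQ : IsW lam Q) : MeasurePreserving rv (nuM Q) (nuM Q) := by
  exact hQ.mp_rv

theorem w_Tz (hQ : IsW lam Q) (k : ℤ) : MeasurePreserving (Tz k) (nuM Q) (nuM Q) := by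
  exact hQ.mp_Tz k

theorem w_cl (hl : Wgt lam) (hQ : IsW lam Q) (K : ℝ) :
    Tendsto (fun N : ℕ => (N : ℝ)⁻¹ * ∑ n ∈ Finset.range N,
      (nuM Q {y | |Vn n y| ≤ K}).toReal) atTop (𝓝 0) := by
  exact hQ.cl hl K

/-! ### helper63 -/

theorem w_wq (hl : Wgt lam) (hQ : IsW lam Q) : Pool.Agent.Helper63.MS.WQ Q :=
  Pool.Agent.Helper63.MS.wq hQ (w_deg hQ) (w_acy hQ) (w_cl hl hQ)


theorem w_blocks (hl : Wgt lam) (hQ : IsW lam Q) (C : ℝ) {ε δ : ℝ} (hε : 0 < ε) (hδ : 0 < δ) :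
    ∃ N : ℕ, ∀ n ≥ N, ∃ L₀ : ℕ, ∀ L ≥ L₀,
      Q {p | ∃ G : Finset Vx, G ⊆ box L ∧ HG n C G p ∧ ε * (box L).card ≤ G.card}
        ≤ ENNReal.ofReal δ := by
  exact Pool.Agent.Helper63.MS.hg_small (w_wq hl hQ) hε hδ

theorem w_pairs (hl : Wgt lam) (hQ : IsW lam Q) (C : ℝ) {ε : ℝ} (hε : 0 < ε) :
    ∃ L₀ : ℕ, ∀ L ≥ L₀, ∑ v ∈ box L, ∑ v' ∈ box L, Q {p | Cl C v v' p}
      ≤ ENNReal.ofReal ε * ((box L).card : ENNReal) ^ 2 := by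
  obtain ⟨L₀, h⟩ := Pool.Agent.Helper63.MS.cl_small (w_wq hl hQ) C hε
  refine ⟨L₀, fun L hL => (h L hL).trans (le_of_eq ?_)⟩
  rw [ENNReal.ofReal_mul hε.le, ENNReal.ofReal_pow (Nat.cast_nonneg _), ENNReal.ofReal_natCast]

theorem w_one (hl : Wgt lam) (hQ : IsW lam Q) :
    ∀ᵐ p ∂Q, One p := by
  exact Pool.Agent.Helper63.MS.one_ae hQ (w_wq hl hQ) (w_rec hl hQ)

/-! ### consequences -/

theorem w_near (hl : Wgt lam) (hQ : IsW lam Q) {ε : ℝ}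
    (hε : 0 < ε) : ∃ (M : ℝ) (r : ℕ), 0 ≤ M ∧ ∀ x, Q {p | ¬ Nr M r x p} ≤ ENNReal.ofReal ε := by
  exact Pool.Agent.Helper63.MM.w_near hl hQ hε

theorem w_sgm (hl : Wgt lam) (hQ : IsW lam Q) (L : ℕ)
    {ε : ℝ} (hε : 0 < ε) :
    ∃ L₀ : ℕ, ∀ L' ≥ L₀, ∀ u, Q {p | ¬ Sgm L L' (shX u p)} ≤ ENNReal.ofReal ε := by
  have : IsFiniteMeasure Q := hQ.fin
  obtain ⟨L₀, h⟩ := Pool.Agent.Helper63.MS.sgm_small (w_one hl hQ) L hε
  refine ⟨L₀, fun L' hL' u => ?_⟩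
  have h1 := (hQ.inv u).measure_preimage
    (Pool.Agent.Helper63.MS.measurableSet_Sgm L L').compl.nullMeasurableSet
  have h2 : Q {p | ¬ Sgm L L' (shX u p)} = Q {p | ¬ Sgm L L' p} := h1
  rw [h2]
  exact h L' hL'

end Pool.Agent.Helper61.MM
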