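import Pool.Agent.Helper61.MM.Exit
import Pool.Agent.Helper61.MM.Good
import Pool.Agent.Helper78.MM.Posi

set_option autoImplicit false

/-!
# META-POSI: exact reflections have positive probability
-/

namespace Pool.Agent.Helper61.MM

open MeasureTheory ProbabilityTheory Filter Topology Pool.Agent.Helper60.TJ
open scoped symmDiff

variable {lam : Measure ℝ} {κ : Kernel WT Rs} {R : Measure Om}

theorem posi (hl : Wgt lam) (hu : ∀ K : ℝ, lam {x | K < x} ≠ 0)
    (hR : IsR lam κ R)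
    (hW : IsW lam (QQ R)) (h3 : R (Df 0 1 g0 ∩ Df 0 2 g0 ∩ Df 1 2 g0) = 0)
    (hp : R (Df 0 1 g0) ≠ 0) :
    ∃ c : ENNReal, 0 < c ∧ ∀ N : ℕ, ∃ v, v ∉ box N ∧ c ≤ R (Ex2 0 v) :=
  Pool.Agent.Helper78.MM.posi_of hl hu hR hW (many_good hl hR hW h3 hp)

end Pool.Agent.Helper61.MM
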